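import Pool.Agent.H37.DEN.Targets
import Pool.Agent.H18.HIT.Basic

/-!
# The iterates on rational functions (row ITR of den_modules)
-/

set_option autoImplicit false

open MvPolynomial Filter
open Pool.Agent.H18.HIT Pool.Agent.H8.TD Pool.Agent.H37.DEN

namespace Pool.Agent.H42.DEN

theorem pf_ITR (hRDG : T_RDG) : T_ITR := by
  intro k _ T τ hτ
  have hinj : Function.Injective (ι : Po 3 k → K3 k) := IsFractionRing.injective _ _
  have h1 : ∀ (n : ℕ) (q : Po 3 k), τ^[n] (ι q) = ι (aeval (it T n) q) := by
    intro n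
    induction n with
    | zero =>
      intro q
      rw [Function.iterate_zero_apply, it_zero]
      congr 1
      exact (DFunLike.congr_fun (aeval_X_left (R := k) (σ := Fin 3)) q).symm
    | succ n ih =>
      intro q
      rw [Function.iterate_succ_apply, hτ, ih, ← aeval_it_succ]
  have h2 : ∀ (n : ℕ) (i : Fin 3), ph τ n i = ι (it T n i) := by
    intro n i
    unfold ph
    have h3 : xx k i = ι (X i) := rfl
    rw [h3, h1, aeval_X]
  have hnz : ∀ (n : ℕ) (q : Po 3 k), q ≠ 0 → aeval (it T n) q ≠ 0 := by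
    intro n q hq h
    have h3 := h1 n q
    rw [h] at h3
    have h4 : ι (0 : Po 3 k) = 0 := map_zero _
    rw [h4] at h3
    have h5 : τ^[n] (ι q) = τ^[n] (0 : K3 k) := by
      rw [h3]
      clear h3 h4
      induction n with
      | zero => rfl
      | succ n _ => rw [Function.iterate_succ_apply', Function.iterate_fixed (map_zero τ),
          map_zero]
    have h6 := (τ.toRingHom.injective.iterate n) h5
    exact hq ((map_eq_zero_iff _ (IsFractionRing.injective (Po 3 k) (K3 k))).1 h6)
  have hpow : ∀ (n : ℕ) (x : K3 k), (τ ^ n : K3 k →ₐ[k] K3 k) x = τ^[n] x := by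
    intro n
    induction n with
    | zero => intro x; rfl
    | succ n ih =>
      intro x
      rw [pow_succ, Function.iterate_succ_apply, ← ih]
      rfl
  refine ⟨h1, h2, fun n P => ?_, hnz, fun n P Q hP hQ => ?_⟩
  · have h3 : (aeval (ph τ n) : Po 3 k →ₐ[k] K3 k) =
        (τ ^ n : K3 k →ₐ[k] K3 k).comp (IsScalarTower.toAlgHom k (Po 3 k) (K3 k)) := by
      apply MvPolynomial.algHom_ext
      intro i
      rw [aeval_X, AlgHom.comp_apply, hpow]
      rfl
    rw [h3, AlgHom.comp_apply, hpow]
    rfl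
  · have h3 : τ^[n] (ι P / ι Q) = ι (aeval (it T n) P) / ι (aeval (it T n) Q) := by
      rw [← hpow, map_div₀, hpow, hpow, h1, h1]
    rw [h3, (hRDG k).2.1 _ _ (hnz n P hP) (hnz n Q hQ)]

end Pool.Agent.H42.DEN
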