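import Pool.Agent.H37.DEN.Targets

/-!
# Degrees of rational functions (row RDG of den_modules)
-/

set_option autoImplicit false

open MvPolynomial Filter
open Pool.Agent.H18.HIT Pool.Agent.H8.TD Pool.Agent.H37.DEN

namespace Pool.Agent.H42.DEN

section

variable {k : Type} [Field k]

theorem iota_inj : Function.Injective (ι : Po 3 k → K3 k) := IsFractionRing.injective _ _

theorem iota_ne {q : Po 3 k} (h : q ≠ 0) : ι q ≠ 0 := fun h' =>
  h ((map_eq_zero_iff _ (IsFractionRing.injective (Po 3 k) (K3 k))).1 h')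

theorem iota_mul (p q : Po 3 k) : ι (p * q) = ι p * ι q := map_mul _ _ _

theorem iota_add (p q : Po 3 k) : ι (p + q) = ι p + ι q := map_add _ _ _

theorem de_ne (h : K3 k) : de h ≠ 0 :=
  nonZeroDivisors.ne_zero (IsLocalization.sec (nonZeroDivisors (Po 3 k)) h).2.2

theorem mul_de (h : K3 k) : h * ι (de h) = ι (nu h) :=
  IsLocalization.sec_spec (nonZeroDivisors (Po 3 k)) h

theorem eq_div (h : K3 k) : h = ι (nu h) / ι (de h) := by
  rw [eq_div_iff (iota_ne (de_ne h)), mul_de]

theorem nu_ne {h : K3 k} (h0 : h ≠ 0) : nu h ≠ 0 := by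
  intro h1
  have h2 := mul_de h
  rw [h1] at h2
  have h3 : ι (0 : Po 3 k) = 0 := map_zero _
  rw [h3] at h2
  exact mul_ne_zero h0 (iota_ne (de_ne h)) h2

theorem rd_div {P Q : Po 3 k} (hP : P ≠ 0) (hQ : Q ≠ 0) :
    rd (ι P / ι Q) = (P.totalDegree : ℤ) - (Q.totalDegree : ℤ) := by
  have hne : ι P / ι Q ≠ 0 := div_ne_zero (iota_ne hP) (iota_ne hQ)
  have h1 : P * de (ι P / ι Q) = nu (ι P / ι Q) * Q := by
    apply iota_inj
    rw [iota_mul, iota_mul, ← mul_de (ι P / ι Q)]
    have h2 := iota_ne hQ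
    field_simp
  have h2 := congrArg totalDegree h1
  rw [totalDegree_mul_of_isDomain hP (de_ne _), totalDegree_mul_of_isDomain (nu_ne hne) hQ] at h2
  unfold rd
  omega

theorem rd_mul {a b : K3 k} (ha : a ≠ 0) (hb : b ≠ 0) : rd (a * b) = rd a + rd b := by
  have h1 : a * b = ι (nu a * nu b) / ι (de a * de b) := by
    rw [iota_mul, iota_mul, ← mul_de, ← mul_de]
    have h2 := iota_ne (de_ne a)
    have h3 := iota_ne (de_ne b)
    field_simp
  rw [h1, rd_div (mul_ne_zero (nu_ne ha) (nu_ne hb)) (mul_ne_zero (de_ne a) (de_ne b)),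
    totalDegree_mul_of_isDomain (nu_ne ha) (nu_ne hb),
    totalDegree_mul_of_isDomain (de_ne a) (de_ne b)]
  unfold rd
  push_cast
  ring

theorem rd_add {a b : K3 k} (ha : a ≠ 0) (hb : b ≠ 0) (hab : a + b ≠ 0) :
    rd (a + b) ≤ max (rd a) (rd b) := by
  have h1 : a + b = ι (nu a * de b + nu b * de a) / ι (de a * de b) := by
    rw [iota_add, iota_mul, iota_mul, iota_mul, ← mul_de, ← mul_de]
    have h2 := iota_ne (de_ne a)
    have h3 := iota_ne (de_ne b)
    field_simp
  have h0 : nu a * de b + nu b * de a ≠ 0 := by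
    intro h
    rw [h] at h1
    have h3 : ι (0 : Po 3 k) = 0 := map_zero _
    rw [h3, zero_div] at h1
    exact hab h1
  rw [h1, rd_div h0 (mul_ne_zero (de_ne a) (de_ne b)),
    totalDegree_mul_of_isDomain (de_ne a) (de_ne b)]
  have h2 := totalDegree_add (nu a * de b) (nu b * de a)
  rw [totalDegree_mul_of_isDomain (nu_ne ha) (de_ne b),
    totalDegree_mul_of_isDomain (nu_ne hb) (de_ne a)] at h2
  unfold rd
  rcases le_max_iff.1 h2 with h3 | h3
  · refine le_max_of_le_left ?_
    push_cast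
    omega
  · refine le_max_of_le_right ?_
    push_cast
    omega

end

theorem pf_RDG : T_RDG := by
  intro k _
  refine ⟨fun h => ⟨de_ne h, eq_div h, nu_ne⟩, fun P Q hP hQ => rd_div hP hQ,
    fun a b => rd_mul, fun a b => rd_add, fun c hc => ?_⟩
  have h1 : algebraMap k (K3 k) c = ι (C c) / ι 1 := by
    have h2 : ι (1 : Po 3 k) = 1 := map_one _
    rw [h2, div_one]
    exact IsScalarTower.algebraMap_apply k (Po 3 k) (K3 k) c
  rw [h1, rd_div (fun h => hc (C_eq_zero.1 h)) one_ne_zero, totalDegree_C, totalDegree_one,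
    sub_self]

end Pool.Agent.H42.DEN
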